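import Pool.Agent.helper5.SYM.SpecA

/-!
# Project sy (MP_45d809_mp), row sy:LBA
-/

set_option autoImplicit false

namespace Pool.Agent.SYM
open Finset CT Polynomial

theorem LBA_pr (t : Fin 3) : (pr t).1 ≠ (pr t).2.1 ∧ (pr t).2.2.1 ≠ (pr t).2.2.2 ∧
    (pr t).2.2.1 ≠ (pr t).1 ∧ (pr t).2.2.1 ≠ (pr t).2.1 ∧ (pr t).2.2.2 ≠ (pr t).1 ∧
    (pr t).2.2.2 ≠ (pr t).2.1 := by
  revert t
  decide

theorem LBA_ne {D : Type} [DecidableEq D] (e : D → D) (he : ∀ d, e (e d) = d) {x y z : D}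
    (hxy : x ≠ y) (hzx : z ≠ x) (hzy : z ≠ y) (hz : e z ≠ z) : join e x y z ≠ z := by
  unfold join
  rw [if_neg (by tauto)]
  split_ifs with h1 h2
  · intro h
    apply hxy
    rw [← h1, ← h, he]
  · intro h
    apply hxy
    rw [← h2, ← h, he]
  · exact hz

theorem LBA_pa {A : Type} [AddCommGroup A] {W : Type} (Φ : W × Fin 4 → A → Bool) (u : W)
    (t : Fin 3) : (∀ i, Φ (u, pa t i) = Φ (u, i)) ↔
      (∀ g, Φ (u, (pr t).2.1) (g + 0) = Φ (u, (pr t).1) g) ∧
        ∀ g, Φ (u, (pr t).2.2.2) (g + 0) = Φ (u, (pr t).2.2.1) g := by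
  simp only [add_zero]
  constructor
  · intro h
    fin_cases t
    · exact ⟨fun g => congrFun (h 0) g, fun g => congrFun (h 2) g⟩
    · exact ⟨fun g => congrFun (h 0) g, fun g => congrFun (h 1) g⟩
    · exact ⟨fun g => congrFun (h 0) g, fun g => congrFun (h 1) g⟩
  · rintro ⟨h1, h2⟩ i
    have g1 := funext h1
    have g2 := funext h2
    fin_cases t <;> fin_cases i
    · exact g1
    · exact g1.symm
    · exact g2
    · exact g2.symm
    · exact g1
    · exact g2
    · exact g1.symm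
    · exact g2.symm
    · exact g1
    · exact g2
    · exact g2.symm
    · exact g1.symm

theorem LBA (hJV : JV_stmt) (hJL : JL_stmt) (hSMA : SMA_stmt) : LBA_stmt := by
  intro W A _ _ _ _ L
  induction L with
  | nil =>
    intro E e α t K _ _ _ _ _
    simp only [lpsv, fe, fa, pow_zero, one_mul]
    refine Nat.card_congr (Equiv.subtypeEquivRight fun Φ => ?_)
    simp
  | cons u L ih =>
    intro E e α t K hnd hE hact hvol hK
    rw [List.nodup_cons] at hnd
    rw [List.toFinset_cons] at hact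
    obtain ⟨p1, p2, p3, p4, p5, p6⟩ := LBA_pr (t u)
    have he : ∀ d, e (e d) = d := hact.1
    have hu : ∀ i, e (u, i) ≠ (u, i) := by
      intro i
      rw [hact.2, mem_union]
      left
      unfold dts
      rw [mem_product]
      exact ⟨mem_insert_self _ _, mem_univ _⟩
    have k : ∀ {i j : Fin 4}, i ≠ j → (u, i) ≠ (u, j) := by
      intro i j hij h
      exact hij (Prod.mk.inj h).2
    have he1 := join_invol e he (k p1) (hu _) (hu _)
    have hvol1 := hJV (W × Fin 4) A e α (u, (pr (t u)).1) (u, (pr (t u)).2.1) 0 he hvol (k p1)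
      (hu _) (hu _)
    have a3 := LBA_ne e he (k p1) (k p3) (k p4) (hu _)
    have a4 := LBA_ne e he (k p1) (k p5) (k p6) (hu _)
    have hLu : ∀ v ∈ L, v ≠ u := by
      rintro v hv rfl
      exact hnd.1 hv
    -- independence
    have hKu : ∀ Φ Φ' : W × Fin 4 → A → Bool, (∀ z : W × Fin 4, z.1 ≠ u → Φ z = Φ' z) →
        (K Φ ↔ K Φ') := by
      intro Φ Φ' h
      refine hK Φ Φ' fun z hz => h z ?_
      rintro rfl
      exact hz (List.mem_cons_self ..)
    have step1 := hJL (W × Fin 4) A e α (u, (pr (t u)).1) (u, (pr (t u)).2.1) 0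
      (fun Φ => K Φ ∧ (∀ g, Φ (u, (pr (t u)).2.2.2) (g + 0) = Φ (u, (pr (t u)).2.2.1) g) ∧
        ∀ v ∈ L, ∀ i, Φ (v, pa (t v) i) = Φ (v, i)) he hvol (k p1) (hu _) (hu _) (by
        intro Φ Φ' h
        have hz : ∀ z : W × Fin 4, z.1 ≠ u → Φ z = Φ' z := by
          intro z hz
          refine h z ?_ ?_
          · rintro rfl; exact hz rfl
          · rintro rfl; exact hz rfl
        have h3 := h _ (k p3) (k p4)
        have h4 := h _ (k p5) (k p6)
        refine and_congr (hKu Φ Φ' hz) (and_congr (by rw [h3, h4]) ?_)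
        refine forall_congr' fun v => forall_congr' fun hv => forall_congr' fun i => ?_
        rw [hz (v, pa (t v) i) (hLu v hv), hz (v, i) (hLu v hv)])
    have step2 := hJL (W × Fin 4) A (join e (u, (pr (t u)).1) (u, (pr (t u)).2.1))
      (jv e α (u, (pr (t u)).1) (u, (pr (t u)).2.1) 0)
      (u, (pr (t u)).2.2.1) (u, (pr (t u)).2.2.2) 0
      (fun Φ => K Φ ∧ ∀ v ∈ L, ∀ i, Φ (v, pa (t v) i) = Φ (v, i)) he1 hvol1 (k p2) a3 a4 (by
        intro Φ Φ' h
        have hz : ∀ z : W × Fin 4, z.1 ≠ u → Φ z = Φ' z := by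
          intro z hz
          refine h z ?_ ?_
          · rintro rfl; exact hz rfl
          · rintro rfl; exact hz rfl
        refine and_congr (hKu Φ Φ' hz) ?_
        refine forall_congr' fun v => forall_congr' fun hv => forall_congr' fun i => ?_
        rw [hz (v, pa (t v) i) (hLu v hv), hz (v, i) (hLu v hv)])
    have hS : u ∉ L.toFinset := by
      rw [List.mem_toFinset]
      exact hnd.1
    obtain ⟨hact2, hvol2⟩ := hSMA W A L.toFinset E e α u (t u) hS (fun x hx h =>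
      hE x hx (h ▸ List.mem_cons_self ..)) hact hvol
    have step3 := ih E (sm e u (t u)) (smv e α u (t u)) t K hnd.2
      (fun x hx h => hE x hx (List.mem_cons_of_mem _ h)) hact2 hvol2 (by
        intro Φ Φ' h
        exact hK Φ Φ' fun z hz => h z fun hz2 => hz (List.mem_cons_of_mem _ hz2))
    have c0 : Nat.card {Φ : W × Fin 4 → A → Bool // Lab e α Φ ∧ K Φ ∧
        ∀ v ∈ u :: L, ∀ i, Φ (v, pa (t v) i) = Φ (v, i)} =
        Nat.card {Φ : W × Fin 4 → A → Bool // Lab e α Φ ∧ (K Φ ∧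
          (∀ g, Φ (u, (pr (t u)).2.2.2) (g + 0) = Φ (u, (pr (t u)).2.2.1) g) ∧
          ∀ v ∈ L, ∀ i, Φ (v, pa (t v) i) = Φ (v, i)) ∧
          ∀ g, Φ (u, (pr (t u)).2.1) (g + 0) = Φ (u, (pr (t u)).1) g} := by
      refine Nat.card_congr (Equiv.subtypeEquivRight fun Φ => ?_)
      rw [List.forall_mem_cons, LBA_pa]
      tauto
    have c1 : Nat.card {Φ : W × Fin 4 → A → Bool //
        Lab (join e (u, (pr (t u)).1) (u, (pr (t u)).2.1))
          (jv e α (u, (pr (t u)).1) (u, (pr (t u)).2.1) 0) Φ ∧ (K Φ ∧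
          (∀ g, Φ (u, (pr (t u)).2.2.2) (g + 0) = Φ (u, (pr (t u)).2.2.1) g) ∧
          ∀ v ∈ L, ∀ i, Φ (v, pa (t v) i) = Φ (v, i))} =
        Nat.card {Φ : W × Fin 4 → A → Bool //
        Lab (join e (u, (pr (t u)).1) (u, (pr (t u)).2.1))
          (jv e α (u, (pr (t u)).1) (u, (pr (t u)).2.1) 0) Φ ∧ (K Φ ∧
          ∀ v ∈ L, ∀ i, Φ (v, pa (t v) i) = Φ (v, i)) ∧
          ∀ g, Φ (u, (pr (t u)).2.2.2) (g + 0) = Φ (u, (pr (t u)).2.2.1) g} := by
      refine Nat.card_congr (Equiv.subtypeEquivRight fun Φ => ?_)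
      tauto
    have c2 : lpsv (u :: L) e α t = lv e α (u, (pr (t u)).1) (u, (pr (t u)).2.1) 0 +
        lv (join e (u, (pr (t u)).1) (u, (pr (t u)).2.1))
          (jv e α (u, (pr (t u)).1) (u, (pr (t u)).2.1) 0)
          (u, (pr (t u)).2.2.1) (u, (pr (t u)).2.2.2) 0 +
        lpsv L (sm e u (t u)) (smv e α u (t u)) t := rfl
    rw [c0, step1, c1, step2, c2, pow_add, pow_add, mul_assoc, mul_assoc]
    exact congrArg _ (congrArg _ step3)

end Pool.Agent.SYM
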